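import Pool.Agent.TH892.FullBox4

/-!
Restriction of a polynomial to an arithmetic progression, in terms of coefficient vectors.
-/

set_option autoImplicit false

namespace Pool.Agent.Q91.LI

open Finset Polynomial Filter
open Pool.Agent.H442R2.EHI (evt_log_pow evt_log_ge)
open Pool.Agent.TH892

/-- the coefficients of `f (N X + s)` -/
def sub {j : ℕ} (c : Fin (j + 1) → ℤ) (N s : ℕ) : Fin (j + 1) → ℤ := fun i =>
  ∑ l : Fin (j + 1), c l * (((l : ℕ).choose (i : ℕ) * N ^ (i : ℕ) * s ^ ((l : ℕ) - (i : ℕ)) : ℕ) : ℤ)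

/-- the coefficients of `(-1) ^ j f (- X)` -/
def refl {j : ℕ} (c : Fin (j + 1) → ℤ) : Fin (j + 1) → ℤ := fun i => (-1) ^ (j + (i : ℕ)) * c i

lemma refl_eval {j : ℕ} (c : Fin (j + 1) → ℤ) (k : ℤ) :
    (pol (refl c)).eval k = (-1) ^ j * (pol c).eval (-k) := by
  rw [pol_eval, pol_eval, mul_sum]
  refine sum_congr rfl fun i _ => ?_
  unfold refl
  rw [pow_add, neg_pow k]
  ring

lemma refl_refl {j : ℕ} (c : Fin (j + 1) → ℤ) : refl (refl c) = c := by
  funext i
  unfold refl
  rw [← mul_assoc, ← pow_add, show j + (i : ℕ) + (j + (i : ℕ)) = 2 * (j + i) by ring, pow_mul]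
  norm_num

lemma refl_mem {j H : ℕ} {c : Fin (j + 1) → ℤ} (hc : c ∈ box j H) : refl c ∈ box j H := by
  unfold TH892.box at *
  rw [Fintype.mem_piFinset] at *
  intro i
  have h := hc i
  by_cases hi : (i : ℕ) = j
  · rw [if_pos hi] at h ⊢
    have : refl c i = c i := by
      unfold refl
      rw [hi, show j + j = 2 * j by ring, pow_mul]
      norm_num
    rw [this]
    exact h
  · rw [if_neg hi] at h ⊢
    rw [mem_Icc] at h ⊢
    unfold refl
    rcases neg_one_pow_eq_or ℤ (j + (i : ℕ)) with h1 | h1 <;> rw [h1] <;> constructor <;> linarith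

lemma choose_le (l i N s : ℕ) : l.choose i * N ^ i * s ^ (l - i) ≤ (N + s) ^ l := by
  rcases lt_or_ge l i with h | h
  · rw [Nat.choose_eq_zero_of_lt h]; simp
  · rw [add_pow]
    have h1 := single_le_sum (f := fun m => N ^ m * s ^ (l - m) * (l.choose m : ℕ))
      (s := range (l + 1)) (fun _ _ => Nat.zero_le _) (mem_range.2 (Nat.lt_succ_of_le h))
    refine le_trans (le_of_eq ?_) h1
    show _ = N ^ i * s ^ (l - i) * l.choose i
    ring

lemma sub_eval {j : ℕ} (c : Fin (j + 1) → ℤ) (N s : ℕ) (k : ℤ) :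
    (pol (sub c N s)).eval k = (pol c).eval ((N : ℤ) * k + s) := by
  rw [pol_eval, pol_eval]
  unfold sub
  simp only [sum_mul]
  rw [sum_comm]
  refine sum_congr rfl fun l _ => ?_
  have hl : (l : ℕ) ≤ j := Nat.lt_succ_iff.1 l.2
  have h1 : ∑ i : Fin (j + 1), c l * (((l : ℕ).choose (i : ℕ) * N ^ (i : ℕ) *
      s ^ ((l : ℕ) - (i : ℕ)) : ℕ) : ℤ) * k ^ (i : ℕ) =
      ∑ i ∈ range (j + 1), c l * (((l : ℕ).choose i * N ^ i * s ^ ((l : ℕ) - i) : ℕ) : ℤ) * k ^ i :=
    Fin.sum_univ_eq_sum_range (fun i => c l * (((l : ℕ).choose i * N ^ i * s ^ ((l : ℕ) - i) : ℕ) : ℤ) *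
      k ^ i) (j + 1)
  rw [h1, add_pow, mul_sum]
  symm
  rw [← sum_subset (range_subset_range.2 (show (l : ℕ) + 1 ≤ j + 1 by omega))]
  · refine sum_congr rfl fun i _ => ?_
    push_cast
    rw [mul_pow]
    ring
  · intro i _ hi
    rw [mem_range, not_lt] at hi
    rw [Nat.choose_eq_zero_of_lt (by omega)]
    simp

lemma sub_mem {j H : ℕ} {c : Fin (j + 1) → ℤ} (hc : c ∈ box j H) {N s Q : ℕ} (hN : 1 ≤ N)
    (hNQ : N ≤ Q) (hs : s ≤ N) : sub c N s ∈ box j ((j + 1) * (2 * Q) ^ j * H) := by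
  have habs : ∀ l, |c l| ≤ H := by
    intro l
    unfold TH892.box at hc
    rw [Fintype.mem_piFinset] at hc
    have h := hc l
    split_ifs at h
    · rw [mem_Icc] at h
      rw [abs_le]; constructor <;> linarith [h.1, h.2]
    · rw [mem_Icc] at h
      rw [abs_le]; exact h
  have hb : ∀ i, |sub c N s i| ≤ (((j + 1) * (2 * Q) ^ j * H : ℕ) : ℤ) := by
    intro i
    unfold sub
    refine (abs_sum_le_sum_abs _ _).trans ?_
    calc ∑ l : Fin (j + 1), |c l * (((l : ℕ).choose (i : ℕ) * N ^ (i : ℕ) *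
          s ^ ((l : ℕ) - (i : ℕ)) : ℕ) : ℤ)|
        ≤ ∑ _l : Fin (j + 1), ((H * (2 * Q) ^ j : ℕ) : ℤ) := by
          refine sum_le_sum fun l _ => ?_
          rw [abs_mul, abs_of_nonneg (Int.natCast_nonneg _)]
          have h1 := choose_le l i N s
          have hl : (l : ℕ) ≤ j := Nat.lt_succ_iff.1 l.2
          have h2 : (N + s) ^ (l : ℕ) ≤ (2 * Q) ^ j := by
            calc (N + s) ^ (l : ℕ) ≤ (2 * Q) ^ (l : ℕ) := Nat.pow_le_pow_left (by omega) _
              _ ≤ (2 * Q) ^ j := Nat.pow_le_pow_right (by omega) hl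
          push_cast
          have h3 : (((l : ℕ).choose (i : ℕ) * N ^ (i : ℕ) * s ^ ((l : ℕ) - (i : ℕ)) : ℕ) : ℤ) ≤
              (((2 * Q) ^ j : ℕ) : ℤ) := by exact_mod_cast h1.trans h2
          push_cast at h3
          exact mul_le_mul (habs l) h3 (by positivity) (by positivity)
      _ = _ := by
          rw [sum_const, card_univ, Fintype.card_fin, nsmul_eq_mul]
          push_cast
          ring
  unfold TH892.box
  rw [Fintype.mem_piFinset]
  intro i
  have h1 := abs_le.1 (hb i)
  by_cases hi : (i : ℕ) = j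
  · rw [if_pos hi, mem_Icc]
    refine ⟨?_, h1.2⟩
    have hi' : i = Fin.last j := Fin.ext hi
    have h2 : sub c N s i = c (Fin.last j) * (N : ℤ) ^ j := by
      unfold sub
      rw [sum_eq_single (Fin.last j)]
      · rw [hi']
        simp
      · intro l _ hl
        have h3 : (l : ℕ) < (i : ℕ) := by
          have h4 := l.2
          have h5 : (l : ℕ) ≠ j := fun h => hl (Fin.ext h)
          omega
        rw [Nat.choose_eq_zero_of_lt h3]
        simp
      · intro h; exact absurd (mem_univ _) h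
    rw [h2]
    have h3 : 1 ≤ c (Fin.last j) := by
      unfold TH892.box at hc
      rw [Fintype.mem_piFinset] at hc
      have h := hc (Fin.last j)
      rw [if_pos (Fin.val_last j), mem_Icc] at h
      exact h.1
    have h4 : (1:ℤ) ≤ (N : ℤ) ^ j := one_le_pow₀ (by exact_mod_cast hN)
    nlinarith
  · rw [if_neg hi, mem_Icc]
    exact h1

lemma pol_inj {j : ℕ} {c c' : Fin (j + 1) → ℤ} (h : pol c = pol c') : c = c' := by
  funext i
  have h1 : ∀ c : Fin (j + 1) → ℤ, (pol c).coeff (i : ℕ) = c i := by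
    intro c
    unfold pol
    rw [finsetSum_coeff, sum_eq_single i]
    · rw [coeff_C_mul_X_pow, if_pos rfl]
    · intro l _ hl
      rw [coeff_C_mul_X_pow, if_neg]
      intro h2
      exact hl (Fin.ext h2.symm)
    · intro h; exact absurd (mem_univ _) h
  rw [← h1 c, ← h1 c', h]

lemma sub_inj {j : ℕ} {N s : ℕ} (hN : 1 ≤ N) {c c' : Fin (j + 1) → ℤ}
    (h : sub c N s = sub c' N s) : c = c' := by
  apply pol_inj
  apply Polynomial.eq_of_infinite_eval_eq
  apply Set.Infinite.mono (s := Set.range (fun k : ℤ => (N : ℤ) * k + s))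
  · rintro _ ⟨k, rfl⟩
    show (pol c).eval _ = (pol c').eval _
    rw [← sub_eval, ← sub_eval, h]
  · apply Set.infinite_range_of_injective
    intro k k' hk
    simp only at hk
    have h1 : (N : ℤ) * k = N * k' := by linarith
    have h2 : (N : ℤ) ≠ 0 := by exact_mod_cast (by omega : N ≠ 0)
    exact mul_left_cancel₀ h2 h1

lemma card_box_mul {j : ℕ} (hj : 1 ≤ j) (H M : ℕ) (hM : 1 ≤ M) :
    ((box j (M * H)).card : ℝ) ≤ (M : ℝ) ^ (j + 1) * (box j H).card := by
  have h : ∀ H : ℕ, ((box j H).card : ℕ) = H * (2 * H + 1) ^ j := by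
    intro H
    unfold TH892.box
    rw [Fintype.card_piFinset, Fin.prod_univ_castSucc]
    have h1 : ∀ i : Fin j, (if ((Fin.castSucc i : Fin (j + 1)) : ℕ) = j then Icc 1 (H : ℤ)
        else Icc (-(H : ℤ)) H).card = 2 * H + 1 := by
      intro i
      rw [if_neg (by simp only [Fin.val_castSucc]; omega), Int.card_Icc]
      omega
    rw [prod_congr rfl fun i _ => h1 i, prod_const, card_univ, Fintype.card_fin,
      if_pos (Fin.val_last j), Int.card_Icc]
    have h2 : ((H : ℤ) + 1 - 1).toNat = H := by omega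
    rw [h2]
    ring
  rw [h, h]
  push_cast
  have h1 : (1:ℝ) ≤ M := by exact_mod_cast hM
  calc (M * H : ℝ) * (2 * (M * H) + 1) ^ j ≤ (M * H : ℝ) * (M * (2 * H + 1)) ^ j := by
        gcongr
        nlinarith
    _ = _ := by rw [mul_pow]; ring

/-- one class on the positive side -/
lemma class_sum (g : ℤ → ℝ) (hg : ∀ v, |g v| ≤ 1) (N : ℕ) (hN : 1 ≤ N) (a : ℤ) (X : ℕ) :
    ∃ s : ℕ, 1 ≤ s ∧ s ≤ N ∧
    |∑ v ∈ (Icc 1 X).filter (fun v : ℕ => (v : ℤ) ≡ a [ZMOD N]), g v| ≤
      1 + |∑ t ∈ Icc 1 ((X - s) / N), g ((N : ℤ) * (t : ℤ) + s)| := by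
  have hN0 : (0:ℤ) < N := by exact_mod_cast hN
  set s : ℕ := ((a - 1) % N).toNat + 1 with hs
  have h1 : 0 ≤ (a - 1) % (N : ℤ) := Int.emod_nonneg _ hN0.ne'
  have h2 : (a - 1) % (N : ℤ) < N := Int.emod_lt_of_pos _ hN0
  have hsN : s ≤ N := by omega
  have hsa : ((s : ℕ) : ℤ) ≡ a [ZMOD N] := by
    have h3 : ((s : ℕ) : ℤ) = (a - 1) % N + 1 := by rw [hs]; push_cast; rw [Int.toNat_of_nonneg h1]
    rw [h3]
    have h4 := (Int.mod_modEq (a - 1) N).add_right 1
    have h5 : a - 1 + 1 = a := by ring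
    rw [h5] at h4
    exact h4
  refine ⟨s, by omega, hsN, ?_⟩
  rw [← sum_filter_add_sum_filter_not ((Icc 1 X).filter (fun v : ℕ => (v : ℤ) ≡ a [ZMOD N]))
    (fun v => v = s)]
  refine (abs_add_le _ _).trans (add_le_add ?_ (le_of_eq ?_))
  · refine (abs_sum_le_sum_abs _ _).trans ?_
    calc _ ≤ ∑ _v ∈ ((Icc 1 X).filter (fun v : ℕ => (v : ℤ) ≡ a [ZMOD N])).filter (fun v => v = s),
          (1:ℝ) := sum_le_sum fun v _ => hg _
      _ ≤ ∑ _v ∈ {s}, (1:ℝ) := by
          apply sum_le_sum_of_subset_of_nonneg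
          · intro v hv
            rw [mem_filter] at hv
            rw [mem_singleton]
            exact hv.2
          · intros; norm_num
      _ = 1 := by simp
  · congr 1
    refine sum_nbij' (fun v => (v - s) / N) (fun t => N * t + s) ?_ ?_ ?_ ?_ ?_
    · intro v hv
      rw [mem_filter, mem_filter, mem_Icc] at hv
      obtain ⟨⟨⟨v1, v2⟩, v3⟩, v4⟩ := hv
      have h3 : ((N : ℕ) : ℤ) ∣ (v : ℤ) - s := (hsa.trans v3.symm).dvd
      obtain ⟨t, ht⟩ := h3
      have h4 : 0 < t := by
        by_contra hcon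
        have h5 : t ≤ 0 := by omega
        rcases eq_or_lt_of_le h5 with h6 | h6
        · rw [h6, mul_zero] at ht; omega
        · have : (N : ℤ) * t ≤ N * (-1) := by
            apply mul_le_mul_of_nonneg_left (by omega) hN0.le
          have : (v : ℤ) ≤ s - N := by linarith
          omega
      have h7 : v = N * t.toNat + s := by
        have : (t.toNat : ℤ) = t := Int.toNat_of_nonneg h4.le
        zify
        rw [this]
        linarith
      rw [mem_Icc]
      have h8 : (v - s) / N = t.toNat := by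
        rw [h7, Nat.add_sub_cancel, Nat.mul_div_cancel_left _ (by omega)]
      constructor
      · show 1 ≤ (v - s) / N
        rw [h8]; omega
      · exact Nat.div_le_div_right (by omega)
    · intro t ht
      rw [mem_Icc] at ht
      have h3 : N * t ≤ X - s := by
        calc N * t ≤ N * ((X - s) / N) := Nat.mul_le_mul_left _ ht.2
          _ ≤ X - s := Nat.mul_div_le _ _
      have h4 : N ≤ N * t := Nat.le_mul_of_pos_right _ (by omega)
      rw [mem_filter, mem_filter, mem_Icc]
      refine ⟨⟨⟨by omega, by omega⟩, ?_⟩, by omega⟩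
      refine Int.ModEq.trans ?_ hsa
      push_cast
      have : (N : ℤ) * t + s ≡ 0 + s [ZMOD N] := by
        apply Int.ModEq.add_right
        exact (Int.modEq_zero_iff_dvd).2 (Dvd.intro _ rfl)
      rwa [zero_add] at this
    · intro v hv
      rw [mem_filter, mem_filter, mem_Icc] at hv
      obtain ⟨⟨⟨v1, v2⟩, v3⟩, v4⟩ := hv
      have h3 : ((N : ℕ) : ℤ) ∣ (v : ℤ) - s := (hsa.trans v3.symm).dvd
      have h5 : s ≤ v := by
        obtain ⟨t, ht⟩ := h3
        by_contra hcon
        have h6 : t < 0 := by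
          by_contra h7
          have : 0 ≤ (N : ℤ) * t := mul_nonneg hN0.le (by omega)
          omega
        have : (N : ℤ) * t ≤ N * (-1) := by
          apply mul_le_mul_of_nonneg_left (by omega) hN0.le
        have : (v : ℤ) ≤ s - N := by linarith
        omega
      have h6 : N ∣ v - s := by
        have : (((v - s : ℕ) : ℤ)) = (v : ℤ) - s := by omega
        rw [← this] at h3
        exact_mod_cast h3
      show N * ((v - s) / N) + s = v
      rw [Nat.mul_div_cancel' h6]
      omega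
    · intro t _
      show (N * t + s - s) / N = t
      rw [Nat.add_sub_cancel, Nat.mul_div_cancel_left _ (by omega)]
    · intro v hv
      rw [mem_filter, mem_filter, mem_Icc] at hv
      obtain ⟨⟨⟨v1, v2⟩, v3⟩, v4⟩ := hv
      have h3 : ((N : ℕ) : ℤ) ∣ (v : ℤ) - s := (hsa.trans v3.symm).dvd
      have h5 : s ≤ v := by
        obtain ⟨t, ht⟩ := h3
        by_contra hcon
        have h6 : t < 0 := by
          by_contra h7
          have : 0 ≤ (N : ℤ) * t := mul_nonneg hN0.le (by omega)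
          omega
        have : (N : ℤ) * t ≤ N * (-1) := by
          apply mul_le_mul_of_nonneg_left (by omega) hN0.le
        have : (v : ℤ) ≤ s - N := by linarith
        omega
      have h6 : N ∣ v - s := by
        have : (((v - s : ℕ) : ℤ)) = (v : ℤ) - s := by omega
        rw [← this] at h3
        exact_mod_cast h3
      congr 1
      have h7 : N * ((v - s) / N) + s = v := by
        rw [Nat.mul_div_cancel' h6]
        omega
      have h8 : (((N * ((v - s) / N) + s : ℕ)) : ℤ) = v := by rw [h7]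
      push_cast at h8 ⊢
      linarith

end Pool.Agent.Q91.LI
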