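import Pool.Agent.Q91.LI.Full
import Pool.Agent.Q91.LI.Prog

/-!
Bounded functions with small exponential sums at almost all polynomials: all lengths, all arithmetic
progressions.
-/

set_option autoImplicit false

namespace Pool.Agent.Q91.LI

open Finset Polynomial Filter
open Pool.Agent.H442R2.EHI (evt_log_pow evt_log_ge)
open Pool.Agent.TH892
open Pool.Agent.H373R2.T7 (SupSmall)

/-- splitting a symmetric interval -/
lemma split_sym (g : ℤ → ℝ) (hg : ∀ v, |g v| ≤ 1) (N : ℕ) (a : ℤ) (X : ℕ) :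
    |∑ v ∈ (Icc (-(X : ℤ)) X).filter (fun v : ℤ => v ≡ a [ZMOD N]), g v| ≤
      1 + |∑ v ∈ (Icc 1 X).filter (fun v : ℕ => (v : ℤ) ≡ a [ZMOD N]), g v| +
      |∑ v ∈ (Icc 1 X).filter (fun v : ℕ => (v : ℤ) ≡ -a [ZMOD N]), g (-(v : ℤ))| := by
  rw [← sum_filter_add_sum_filter_not ((Icc (-(X : ℤ)) X).filter (fun v : ℤ => v ≡ a [ZMOD N]))
    (fun v => 0 < v)]
  rw [← sum_filter_add_sum_filter_not (((Icc (-(X : ℤ)) X).filter
    (fun v : ℤ => v ≡ a [ZMOD N])).filter (fun v => ¬ 0 < v)) (fun v => v = 0)]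
  have h1 : ∑ v ∈ ((Icc (-(X : ℤ)) X).filter (fun v : ℤ => v ≡ a [ZMOD N])).filter
      (fun v => 0 < v), g v = ∑ v ∈ (Icc 1 X).filter (fun v : ℕ => (v : ℤ) ≡ a [ZMOD N]), g v := by
    refine sum_nbij' (fun v => v.toNat) (fun v => (v : ℤ)) ?_ ?_ ?_ ?_ ?_
    · intro v hv
      rw [mem_filter, mem_filter, mem_Icc] at hv
      obtain ⟨⟨⟨v1, v2⟩, v3⟩, v4⟩ := hv
      rw [mem_filter, mem_Icc]
      refine ⟨by omega, ?_⟩
      rwa [Int.toNat_of_nonneg v4.le]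
    · intro v hv
      rw [mem_filter, mem_Icc] at hv
      rw [mem_filter, mem_filter, mem_Icc]
      refine ⟨⟨by omega, hv.2⟩, by omega⟩
    · intro v hv
      rw [mem_filter] at hv
      exact Int.toNat_of_nonneg hv.2.le
    · intro v _
      exact Int.toNat_natCast v
    · intro v hv
      rw [mem_filter] at hv
      rw [Int.toNat_of_nonneg hv.2.le]
  have h2 : ∑ v ∈ (((Icc (-(X : ℤ)) X).filter (fun v : ℤ => v ≡ a [ZMOD N])).filter
      (fun v => ¬ 0 < v)).filter (fun v => ¬ v = 0), g v =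
      ∑ v ∈ (Icc 1 X).filter (fun v : ℕ => (v : ℤ) ≡ -a [ZMOD N]), g (-(v : ℤ)) := by
    refine sum_nbij' (fun v => (-v).toNat) (fun v => -(v : ℤ)) ?_ ?_ ?_ ?_ ?_
    · intro v hv
      rw [mem_filter, mem_filter, mem_filter, mem_Icc] at hv
      obtain ⟨⟨⟨⟨v1, v2⟩, v3⟩, v4⟩, v5⟩ := hv
      rw [mem_filter, mem_Icc]
      refine ⟨by omega, ?_⟩
      rw [Int.toNat_of_nonneg (by omega)]
      exact v3.neg
    · intro v hv
      rw [mem_filter, mem_Icc] at hv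
      rw [mem_filter, mem_filter, mem_filter, mem_Icc]
      refine ⟨⟨⟨by omega, ?_⟩, by omega⟩, by omega⟩
      have := hv.2.neg
      rwa [neg_neg] at this
    · intro v hv
      rw [mem_filter, mem_filter] at hv
      show -(((-v).toNat : ℕ) : ℤ) = v
      rw [Int.toNat_of_nonneg (by omega)]
      ring
    · intro v _
      show (- -(v : ℤ)).toNat = v
      rw [neg_neg, Int.toNat_natCast]
    · intro v hv
      rw [mem_filter, mem_filter] at hv
      rw [Int.toNat_of_nonneg (by omega), neg_neg]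
  have h3 : |∑ v ∈ (((Icc (-(X : ℤ)) X).filter (fun v : ℤ => v ≡ a [ZMOD N])).filter
      (fun v => ¬ 0 < v)).filter (fun v => v = 0), g v| ≤ 1 := by
    refine (abs_sum_le_sum_abs _ _).trans ?_
    calc _ ≤ ∑ _v ∈ (((Icc (-(X : ℤ)) X).filter (fun v : ℤ => v ≡ a [ZMOD N])).filter
            (fun v => ¬ 0 < v)).filter (fun v => v = 0), (1:ℝ) := sum_le_sum fun v _ => hg _
      _ ≤ ∑ _v ∈ {(0:ℤ)}, (1:ℝ) := by
          apply sum_le_sum_of_subset_of_nonneg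
          · intro v hv
            rw [mem_filter] at hv
            rw [mem_singleton]
            exact hv.2
          · intros; norm_num
      _ = 1 := by simp
  rw [h1, h2]
  refine (abs_add_le _ _).trans ?_
  have h4 := abs_add_le (∑ v ∈ (((Icc (-(X : ℤ)) X).filter (fun v : ℤ => v ≡ a [ZMOD N])).filter
      (fun v => ¬ 0 < v)).filter (fun v => v = 0), g v)
      (∑ v ∈ (Icc 1 X).filter (fun v : ℕ => (v : ℤ) ≡ -a [ZMOD N]), g (-(v : ℤ)))
  linarith

lemma hz_refl (h : ℕ → ℝ) {j : ℕ} (c : Fin (j + 1) → ℤ) (k : ℤ) :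
    hz h ((pol (refl c)).eval k) = hz h ((pol c).eval (-k)) := by
  rw [refl_eval]
  rcases neg_one_pow_eq_or ℤ j with h1 | h1 <;> rw [h1]
  · rw [one_mul]
  · rw [neg_one_mul]
    unfold hz
    rw [Int.natAbs_neg]
    simp only [neg_eq_zero]

lemma sz_sub (h : ℕ → ℝ) {j : ℕ} (c : Fin (j + 1) → ℤ) (N s T : ℕ) :
    ∑ t ∈ Icc 1 T, hz h ((pol c).eval ((N : ℤ) * (t : ℤ) + s)) = sz h (pol (sub c N s)) T := by
  unfold sz
  refine sum_congr rfl fun t _ => ?_
  rw [sub_eval]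

theorem finL (j : ℕ) (hj : 1 ≤ j) (A : ℕ) (h : ℕ → ℝ) (hb : ∀ n, |h n| ≤ 1)
    (hs : SupSmall (fun n => (h n : ℂ))) :
    ∃ B H0 : ℕ, ∀ H : ℕ, H0 ≤ H → ∃ Bad ⊆ box j H,
      ((Bad.card : ℕ) : ℝ) ≤ ((box j H).card : ℝ) / Real.log H ^ A ∧
      ∀ c ∈ box j H, c ∉ Bad → ∀ X : ℕ, Real.log H ^ B ≤ X → (X : ℝ) * Real.log H ^ B ≤ H →
      ∀ N : ℕ, 1 ≤ N → (N : ℝ) ≤ Real.log H ^ A → ∀ a : ℤ,
        |∑ v ∈ (Icc (-(X : ℤ)) X).filter (fun v : ℤ => v ≡ a [ZMOD N]), hz h ((pol c).eval v)| ≤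
          X / Real.log H ^ A := by
  classical
  set U' := (A * j + 1) * (j + 1) + 2 * A + 1 + A with hU'
  obtain ⟨B', x1, hB'⟩ := exc_boxL j hj U' h hb hs
  have hev : ∀ᶠ H : ℕ in atTop, x1 ≤ H ∧ 8 ≤ Real.log H ∧ ((j + 1 : ℕ) * 2 ^ j : ℝ) ≤ Real.log H ∧
      (2:ℝ) ^ B' ≤ Real.log H ∧ Real.log H ^ (A * j + 1) ≤ (H : ℝ) ^ (1:ℝ) ∧ 1 ≤ H := by
    filter_upwards [eventually_ge_atTop x1, evt_log_ge 8, evt_log_ge ((j + 1 : ℕ) * 2 ^ j : ℝ),
      evt_log_ge ((2:ℝ) ^ B'), evt_log_pow (A * j + 1) 1 (by norm_num), eventually_ge_atTop 1]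
      with H h1 h3 h4 h5 h6 h7
    exact ⟨h1, h3, h4, h5, h6, h7⟩
  obtain ⟨H0, hH0⟩ := eventually_atTop.mp hev
  refine ⟨B' + 2 * A + 3, H0, fun H hH => ?_⟩
  obtain ⟨hx1, hL8, hLj, hLB, hLH, hH1⟩ := hH0 H hH
  rw [Real.rpow_one] at hLH
  set L := Real.log H with hLdef
  have hL0 : 0 < L := by linarith
  have hL1 : 1 ≤ L := by linarith
  have hLp0 : ∀ n : ℕ, 0 < L ^ n := fun n => by positivity
  have hLp : ∀ n : ℕ, 1 ≤ L ^ n := fun n => one_le_pow₀ hL1
  have hLmono : ∀ m n : ℕ, m ≤ n → L ^ m ≤ L ^ n := fun m n h => pow_le_pow_right₀ hL1 h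
  have hHr : (1:ℝ) ≤ H := by exact_mod_cast hH1
  set Q := ⌊L ^ A⌋₊ with hQ
  have hQle : (Q:ℝ) ≤ L ^ A := Nat.floor_le (hLp0 _).le
  have hQ1 : 1 ≤ Q := Nat.le_floor (by simpa using hLp A)
  set M := (j + 1) * (2 * Q) ^ j with hM
  have hM1 : 1 ≤ M := by
    rw [hM]
    exact Nat.mul_pos (by omega) (Nat.pow_pos (by omega))
  have hMle : (M:ℝ) ≤ L ^ (A * j + 1) := by
    rw [hM]
    push_cast
    calc ((j:ℝ) + 1) * (2 * (Q:ℝ)) ^ j ≤ ((j:ℝ) + 1) * (2 * L ^ A) ^ j := by gcongr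
      _ = ((j + 1 : ℕ) * 2 ^ j : ℝ) * L ^ (A * j) := by
          rw [mul_pow, ← pow_mul]; push_cast; ring
      _ ≤ L * L ^ (A * j) := by gcongr
      _ = _ := by ring
  have hMH : (M:ℝ) ≤ H := hMle.trans hLH
  have hHM : H ≤ M * H := Nat.le_mul_of_pos_left _ (by omega)
  have hHMr : (H:ℝ) ≤ ((M * H : ℕ) : ℝ) := by exact_mod_cast hHM
  obtain ⟨Bad', hBs, hBc, hBm⟩ := hB' (M * H) (hx1.trans hHM)
  set L' := Real.log ((M * H : ℕ) : ℝ) with hL'
  have hLL' : L ≤ L' := Real.log_le_log (by linarith) hHMr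
  have hL'2 : L' ≤ 2 * L := by
    have h1 : ((M * H : ℕ) : ℝ) ≤ (H:ℝ) ^ 2 := by
      push_cast
      nlinarith
    calc L' ≤ Real.log ((H:ℝ) ^ 2) := Real.log_le_log (by positivity) h1
      _ = 2 * L := by rw [Real.log_pow]; push_cast; ring
  have hL'0 : 0 < L' := by linarith
  have hL'B : L' ^ B' ≤ L ^ (B' + 1) := by
    calc L' ^ B' ≤ (2 * L) ^ B' := by gcongr
      _ = 2 ^ B' * L ^ B' := by rw [mul_pow]
      _ ≤ L * L ^ B' := by gcongr
      _ = _ := by ring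
  set Bd : ℕ × ℕ → Finset (Fin (j + 1) → ℤ) := fun p =>
    (box j H).filter (fun c => sub c p.1 p.2 ∈ Bad') ∪
    (box j H).filter (fun c => sub (refl c) p.1 p.2 ∈ Bad') with hBd
  have hcardBd : ∀ p ∈ (Icc 1 Q) ×ˢ (Icc 1 Q), ((Bd p).card : ℝ) ≤ 2 * Bad'.card := by
    intro p hp
    rw [mem_product, mem_Icc, mem_Icc] at hp
    have h1 : ((box j H).filter (fun c => sub c p.1 p.2 ∈ Bad')).card ≤ Bad'.card := by
      refine card_le_card_of_injOn (fun c => sub c p.1 p.2) ?_ ?_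
      · intro c hc
        exact (mem_filter.1 hc).2
      · intro c _ c' _ hcc
        exact sub_inj hp.1.1 hcc
    have h2 : ((box j H).filter (fun c => sub (refl c) p.1 p.2 ∈ Bad')).card ≤ Bad'.card := by
      refine card_le_card_of_injOn (fun c => sub (refl c) p.1 p.2) ?_ ?_
      · intro c hc
        exact (mem_filter.1 hc).2
      · intro c _ c' _ hcc
        have := sub_inj hp.1.1 hcc
        rw [← refl_refl c, this, refl_refl]
    have h3 := (card_union_le ((box j H).filter (fun c => sub c p.1 p.2 ∈ Bad'))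
      ((box j H).filter (fun c => sub (refl c) p.1 p.2 ∈ Bad'))).trans (add_le_add h1 h2)
    have h4 : (Bd p).card ≤ Bad'.card + Bad'.card := h3
    have h5 : ((Bd p).card : ℝ) ≤ Bad'.card + Bad'.card := by exact_mod_cast h4
    linarith
  have hbadc : ((Bad'.card : ℕ) : ℝ) ≤
      L ^ ((A * j + 1) * (j + 1)) * ((box j H).card : ℝ) / L ^ U' := by
    refine hBc.trans ?_
    have h1 := card_box_mul hj H M hM1
    have h2 : (M:ℝ) ^ (j + 1) ≤ L ^ ((A * j + 1) * (j + 1)) := by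
      calc (M:ℝ) ^ (j + 1) ≤ (L ^ (A * j + 1)) ^ (j + 1) := by gcongr
        _ = _ := by rw [← pow_mul]
    have h3 : L ^ U' ≤ L' ^ U' := by gcongr
    calc ((box j (M * H)).card : ℝ) / L' ^ U' ≤ ((M : ℝ) ^ (j + 1) * (box j H).card) / L ^ U' := by
          gcongr
      _ ≤ _ := by gcongr
  refine ⟨((Icc 1 Q) ×ˢ (Icc 1 Q)).biUnion Bd, ?_, ?_, ?_⟩
  · intro c hc
    rw [mem_biUnion] at hc
    obtain ⟨p, _, hp⟩ := hc
    rw [hBd] at hp
    simp only [mem_union, mem_filter] at hp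
    rcases hp with hp | hp <;> exact hp.1
  · have h1 : (((((Icc 1 Q) ×ˢ (Icc 1 Q)).biUnion Bd).card : ℕ) : ℝ) ≤
        ∑ p ∈ (Icc 1 Q) ×ˢ (Icc 1 Q), ((Bd p).card : ℝ) := by exact_mod_cast card_biUnion_le
    refine h1.trans ((sum_le_sum hcardBd).trans ?_)
    rw [sum_const, card_product, Nat.card_Icc, Nat.add_sub_cancel, nsmul_eq_mul]
    push_cast
    calc (Q:ℝ) * Q * (2 * (Bad'.card : ℝ)) ≤ L ^ A * L ^ A * (2 *
          (L ^ ((A * j + 1) * (j + 1)) * ((box j H).card : ℝ) / L ^ U')) := by gcongr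
      _ = ((box j H).card : ℝ) / L ^ A * (2 / L) := by
          rw [hU', pow_add, pow_add, pow_add, pow_mul' L 2 A]
          field_simp
      _ ≤ ((box j H).card : ℝ) / L ^ A * 1 := by
          apply mul_le_mul_of_nonneg_left _ (by positivity)
          rw [div_le_one hL0]
          linarith
      _ = _ := mul_one _
  · intro c hc hcB X hX1 hX2 N hN1 hNL a
    have hNQ : N ≤ Q := Nat.le_floor hNL
    have hX0 : (0:ℝ) ≤ X := Nat.cast_nonneg _
    have hnot : ∀ s : ℕ, 1 ≤ s → s ≤ N → sub c N s ∉ Bad' ∧ sub (refl c) N s ∉ Bad' := by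
      intro s hs1 hsN
      have h1 : c ∉ Bd (N, s) := by
        intro h2
        apply hcB
        rw [mem_biUnion]
        refine ⟨(N, s), ?_, h2⟩
        rw [mem_product, mem_Icc, mem_Icc]
        exact ⟨⟨hN1, hNQ⟩, ⟨hs1, hsN.trans hNQ⟩⟩
      rw [hBd] at h1
      simp only [mem_union, mem_filter, not_or, not_and] at h1
      exact ⟨h1.1 hc, h1.2 hc⟩
    have hN1r : (1:ℝ) ≤ N := by exact_mod_cast hN1
    have hT : ∀ s : ℕ, s ≤ N → L' ^ B' ≤ ((X - s) / N : ℕ) ∧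
        (((X - s) / N : ℕ) : ℝ) * L' ^ B' ≤ ((M * H : ℕ) : ℝ) ∧ (((X - s) / N : ℕ) : ℝ) ≤ X := by
      intro s hsN
      have hT1 : (((X - s) / N : ℕ) : ℝ) ≤ X := by
        have : (X - s) / N ≤ X := (Nat.div_le_self _ _).trans (Nat.sub_le _ _)
        exact_mod_cast this
      refine ⟨?_, ?_, hT1⟩
      · have h1 : X < N * ((X - s) / N + 1) + s := by
          have := Nat.lt_mul_div_succ (X - s) (show 0 < N by omega)
          omega
        have h2 : (X:ℝ) < N * ((((X - s) / N : ℕ) : ℝ) + 1) + s := by exact_mod_cast h1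
        have hsr : (s:ℝ) ≤ N := by exact_mod_cast hsN
        have h3 : (X:ℝ) < N * ((((X - s) / N : ℕ) : ℝ) + 2) := by linarith
        have h4 : L ^ (B' + 3) * N ≤ X := by
          calc L ^ (B' + 3) * N ≤ L ^ (B' + 3) * L ^ A := by gcongr
            _ = L ^ (B' + 3 + A) := (pow_add _ _ _).symm
            _ ≤ L ^ (B' + 2 * A + 3) := hLmono _ _ (by omega)
            _ ≤ X := hX1
        have h5 : L ^ (B' + 3) ≤ (((X - s) / N : ℕ) : ℝ) + 2 := by
          have h6 : (N:ℝ) * L ^ (B' + 3) ≤ N * ((((X - s) / N : ℕ) : ℝ) + 2) := by linarith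
          exact le_of_mul_le_mul_left h6 (by linarith)
        have h7 : L ^ (B' + 1) + 2 ≤ L ^ (B' + 3) := by
          have h8 : L ^ (B' + 3) = L ^ (B' + 1) * (L * L) := by ring
          rw [h8]
          have h9 := hLp (B' + 1)
          have h10 : (64:ℝ) ≤ L * L := by nlinarith
          have h11 : L ^ (B' + 1) * 64 ≤ L ^ (B' + 1) * (L * L) :=
            mul_le_mul_of_nonneg_left h10 (by linarith)
          linarith
        linarith
      · calc (((X - s) / N : ℕ) : ℝ) * L' ^ B' ≤ X * L ^ (B' + 1) := by gcongr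
          _ ≤ X * L ^ (B' + 2 * A + 3) := by
              apply mul_le_mul_of_nonneg_left (hLmono _ _ (by omega)) hX0
          _ ≤ H := hX2
          _ ≤ _ := hHMr
    have hval : ∀ T : ℕ, (T:ℝ) ≤ X → (T:ℝ) / L' ^ U' ≤ X / L ^ (A + 1) := by
      intro T hT
      have h3 : L ^ (A + 1) ≤ L' ^ U' := by
        calc L ^ (A + 1) ≤ L ^ U' := hLmono _ _ (by omega)
          _ ≤ L' ^ U' := by gcongr
      gcongr
    have hg : ∀ v : ℤ, |hz h ((pol c).eval v)| ≤ 1 := fun v => hz_abs h hb _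
    refine (split_sym (fun v => hz h ((pol c).eval v)) hg N a X).trans ?_
    obtain ⟨s1, s11, s12, s13⟩ := class_sum (fun v => hz h ((pol c).eval v)) hg N hN1 a X
    obtain ⟨s2, s21, s22, s23⟩ := class_sum (fun v => hz h ((pol c).eval (-v))) (fun v => hg _) N hN1
      (-a) X
    have e1 : |∑ t ∈ Icc 1 ((X - s1) / N), hz h ((pol c).eval ((N : ℤ) * (t : ℤ) + s1))| ≤
        X / L ^ (A + 1) := by
      rw [sz_sub]
      obtain ⟨t1, t2, t3⟩ := hT s1 s12
      exact (hBm (sub c N s1) (sub_mem hc hN1 hNQ s12) (hnot s1 s11 s12).1 _ t1 t2).trans (hval _ t3)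
    have e2 : |∑ t ∈ Icc 1 ((X - s2) / N), hz h ((pol c).eval (-((N : ℤ) * (t : ℤ) + s2)))| ≤
        X / L ^ (A + 1) := by
      have h1 : ∑ t ∈ Icc 1 ((X - s2) / N), hz h ((pol c).eval (-((N : ℤ) * (t : ℤ) + s2))) =
          ∑ t ∈ Icc 1 ((X - s2) / N), hz h ((pol (refl c)).eval ((N : ℤ) * (t : ℤ) + s2)) := by
        refine sum_congr rfl fun t _ => ?_
        rw [hz_refl]
      rw [h1, sz_sub]
      obtain ⟨t1, t2, t3⟩ := hT s2 s22
      exact (hBm (sub (refl c) N s2) (sub_mem (refl_mem hc) hN1 hNQ s22) (hnot s2 s21 s22).2 _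
        t1 t2).trans (hval _ t3)
    have h3 : (3:ℝ) ≤ X / L ^ (A + 1) := by
      rw [le_div_iff₀ (hLp0 _)]
      calc 3 * L ^ (A + 1) ≤ L * L ^ (A + 1) := by gcongr; linarith
        _ = L ^ (A + 2) := by ring
        _ ≤ L ^ (B' + 2 * A + 3) := hLmono _ _ (by omega)
        _ ≤ X := hX1
    have h4 : 3 * (X / L ^ (A + 1)) ≤ X / L ^ A := by
      rw [pow_succ, ← div_div, mul_div_assoc', div_le_iff₀ hL0]
      have : 0 ≤ (X:ℝ) / L ^ A := by positivity
      nlinarith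
    linarith

end Pool.Agent.Q91.LI
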