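import Pool.Agent.H300R2.FB.BHG
import Pool.Agent.Q91.BX.CoreF
import Pool.Agent.H373R2.T7.SupLiou

/-!
Bounded functions with small exponential sums (for instance the Liouville function) on average over a
full box of polynomials, all lengths larger than a power of the logarithm.
-/

set_option autoImplicit false

namespace Pool.Agent.Q91.LI

open Finset Polynomial Filter
open Pool.Agent.H469R2.NK (e norm_e)
open Pool.Agent.H442R2.EHI (evt_log_pow evt_log_ge)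
open Pool.Agent.H300R2.BH
open Pool.Agent.H300R2.FB
open Pool.Agent.H373R2.T7 (SupSmall)
open Pool.Agent.Q91.BX

/-- the function `h` cut at `x` -/
noncomputable def cut (h : ℕ → ℂ) (x n : ℕ) : ℂ := if n ≤ x then h n else 0

lemma cut_zero (h : ℕ → ℂ) (x n : ℕ) (hn : x < n) : cut h x n = 0 := by
  unfold cut
  rw [if_neg (by omega)]

lemma ee_eq_e (x : ℝ) : Pool.Agent.H807R2.Dav.ee x = e x := by
  rw [Pool.Agent.H807R2.Dav.ee_eq]
  rfl

lemma cut_four (h : ℕ → ℂ) (hs : SupSmall h) (E1 E3 : ℕ) : ∃ x0 : ℕ, ∀ x : ℕ, x0 ≤ x →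
    FourierHyp (cut h x) x E1 E3 := by
  obtain ⟨N0, hN⟩ := hs (2 * E3)
  refine ⟨N0, fun x hx q _ _ b _ β _ => ?_⟩
  refine le_trans (le_of_eq ?_) (hN x hx β)
  congr 1
  refine sum_congr rfl fun n hn => ?_
  rw [mem_Icc] at hn
  unfold cut
  rw [if_pos hn.2, ee_eq_e]

lemma cut_sq (h : ℕ → ℂ) (hb : ∀ n, ‖h n‖ ≤ 1) (x : ℕ) (hL : 1 ≤ Real.log x) :
    ∑ n ∈ Icc 1 x, ‖cut h x n‖ ^ 2 ≤ x * Real.log x ^ 2 := by
  have h1 : ∑ n ∈ Icc 1 x, ‖cut h x n‖ ^ 2 ≤ ∑ _n ∈ Icc 1 x, (1:ℝ) := by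
    refine sum_le_sum fun n _ => ?_
    unfold cut
    split_ifs
    · exact pow_le_one₀ (norm_nonneg _) (hb n)
    · simp
  refine h1.trans ?_
  rw [sum_const, Nat.card_Icc, nsmul_eq_mul, Nat.add_sub_cancel, mul_one]
  exact le_mul_of_one_le_right (Nat.cast_nonneg _) (one_le_pow₀ hL)

lemma fz_norm (h : ℕ → ℂ) (hb : ∀ n, ‖h n‖ ≤ 1) (m : ℤ) : ‖fz h m‖ ≤ 1 := by
  unfold fz
  split_ifs
  · exact hb _
  · simp

theorem laX (j : ℕ) (hj : 1 ≤ j) (E0 E6 U : ℕ) (h : ℕ → ℂ) (hb : ∀ n, ‖h n‖ ≤ 1)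
    (hs : SupSmall h) : ∃ B x0 : ℕ, ∀ x : ℕ, x0 ≤ x →
    ∀ (K D A A1 a0 : ℕ) (R : ℤ[X]) (m0 : ℤ)
    (H : Fin (j - 1) → ℕ) (σ : ℤ), BoxF j K D A a0 m0 σ x (Real.log x ^ B) →
    (x : ℝ) ≤ D * (K : ℝ) ^ j * Real.log x ^ E0 → Real.log x ^ B ≤ K →
    (K : ℝ) * Real.log x ^ B ≤ A1 → A1 ≤ A → (∀ i, A1 ≤ 2 * H i + 1) →
    (A1 : ℝ) ≤ D * Real.log x ^ E6 → D ≤ A1 → A ≤ x →
    (∀ k ∈ Icc 1 K, |((R.eval (k : ℤ) : ℤ) : ℝ)| ≤ (K : ℝ) ^ j / Real.log x ^ B) →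
    (∀ i, (H i : ℝ) * Real.log x ^ B ≤ D * (K : ℝ) ^ (j - 1 - (i : ℕ))) →
    ∑ r ∈ bx j H, ∑ a ∈ Ioc a0 (a0 + A), ∑ d ∈ Ioc D (2 * D),
      ‖∑ k ∈ Icc 1 K, fz h ((FF (C m0 + R + Rr j r) j σ a d).eval (k : ℤ))‖ ≤
      ((bx j H).card : ℝ) * (A * D * K / Real.log x ^ U) := by
  classical
  set E2 := U + 5 with hE2
  obtain ⟨E1, E3, B1, x1, -, hcore⟩ := coreX j hj E0 E2 E6 (2 * U + E0 + 8) 0
  obtain ⟨x3, hff⟩ := cut_four h hs E1 E3
  set B := B1 + E6 + j * E2 + E2 + 3 with hB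
  have hev : ∀ᶠ x : ℕ in atTop, x1 ≤ x ∧ x3 ≤ x ∧ 3 ≤ x ∧
      1000 * (j + 2) ≤ Real.log x := by
    filter_upwards [eventually_ge_atTop x1, eventually_ge_atTop x3,
      eventually_ge_atTop 3, evt_log_ge (1000 * (j + 2))]
      with x h1 h3 h4 h5
    exact ⟨h1, h3, h4, h5⟩
  obtain ⟨x0, hx0⟩ := eventually_atTop.mp hev
  refine ⟨B, x0, fun x hx K D A A1 a0 R m0 H σ hbox hxDK hxK hKA1 hA1A hA1H hA1D hDA1 hAx
    hR hH => ?_⟩
  obtain ⟨hx1, hx3, hx3', hL⟩ := hx0 x hx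
  have hj1 : (1:ℝ) ≤ j := by exact_mod_cast hj
  have hsq := cut_sq h hb x (by nlinarith)
  have hfour := hff x hx3
  set L := Real.log x with hLdef
  have hL1000 : (1000:ℝ) ≤ L := by nlinarith
  have hL0 : 0 < L := by linarith
  have hL1 : 1 ≤ L := by linarith
  have hLp0 : ∀ n : ℕ, 0 < L ^ n := fun n => by positivity
  have hLp : ∀ n : ℕ, 1 ≤ L ^ n := fun n => one_le_pow₀ hL1
  have hLmono : ∀ m n : ℕ, m ≤ n → L ^ m ≤ L ^ n := fun m n h => pow_le_pow_right₀ hL1 h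
  have hxr : (3:ℝ) ≤ x := by exact_mod_cast hx3'
  have hx0' : (0:ℝ) < x := by linarith
  obtain ⟨hDK, hσ⟩ := boxF_facts (hLp B) hbox
  have hK1r : (1:ℝ) ≤ K := (hLp _).trans hxK
  have hKpos : (0:ℝ) < K := by linarith
  have hK1n : 1 ≤ K := by exact_mod_cast hK1r
  have hKj : (0:ℝ) < (K:ℝ) ^ j := by positivity
  have hA1r : (A1:ℝ) ≤ A := by exact_mod_cast hA1A
  have hKA : (K:ℝ) ≤ A := by
    calc (K:ℝ) ≤ K * L ^ B := le_mul_of_one_le_right hKpos.le (hLp B)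
      _ ≤ A1 := hKA1
      _ ≤ A := hA1r
  have hA0 : (0:ℝ) < A := by linarith
  have hKD : (K:ℝ) ≤ D := by
    have h1 : (K:ℝ) * L ^ B ≤ D * L ^ E6 := hKA1.trans hA1D
    have h2 : (K:ℝ) * L ^ E6 ≤ D * L ^ E6 := by
      refine le_trans ?_ h1
      gcongr
      omega
    exact le_of_mul_le_mul_right h2 (hLp0 _)
  have hLBK : L ^ B ≤ K := hxK
  have hLBD : L ^ B ≤ D := hLBK.trans hKD
  have hD0 : (0:ℝ) < D := by linarith [hLp B]
  -- `K1`
  set K1 := ⌊(K:ℝ) / L ^ (U + 4)⌋₊ with hK1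
  have hK1le : (K1:ℝ) ≤ K / L ^ (U + 4) := Nat.floor_le (by positivity)
  have hK1K : K1 ≤ K := by
    have : (K1:ℝ) ≤ K := hK1le.trans (div_le_self (by positivity) (hLp _))
    exact_mod_cast this
  have hKK1 : (K:ℝ) ≤ K1 * L ^ E2 := by
    have h1 : (K:ℝ) / L ^ (U + 4) < K1 + 1 := Nat.lt_floor_add_one _
    have h2 : L ≤ (K:ℝ) / L ^ (U + 4) := by
      rw [le_div_iff₀ (hLp0 _)]
      calc L * L ^ (U + 4) = L ^ (U + 5) := by ring
        _ ≤ _ := hLmono _ _ (by omega)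
        _ ≤ _ := hLBK
    have h3 : (K:ℝ) / L ^ (U + 4) ≤ K1 * L := by nlinarith
    calc (K:ℝ) = (K / L ^ (U + 4)) * L ^ (U + 4) := by field_simp
      _ ≤ (K1 * L) * L ^ (U + 4) := by gcongr
      _ = K1 * L ^ E2 := by rw [hE2]; ring
  have hDKn : 2 * D * K ^ j ≤ x := by exact_mod_cast hDK
  have hRB : ∀ B0 : ℕ, B0 ≤ B → ∀ k ∈ Icc 1 K, |((R.eval (k : ℤ) : ℤ) : ℝ)| ≤
      (K : ℝ) ^ j / L ^ B0 := by
    intro B0 hB0 k hk
    refine (hR k hk).trans ?_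
    apply div_le_div_of_nonneg_left hKj.le (hLp0 _) (hLmono _ _ hB0)
  have hHB : ∀ B0 : ℕ, B0 ≤ B → ∀ i, (H i : ℝ) * L ^ B0 ≤ D * (K : ℝ) ^ (j - 1 - (i : ℕ)) := by
    intro B0 hB0 i
    refine le_trans ?_ (hH i)
    gcongr
  -- values
  have hvals := fun r hr a d ha hd => fam_vals j hj x (L ^ B) L E0 E2 K K1 D A a0 R m0 σ H
    (by linarith) hLBD (by
      calc 16 * ((j:ℝ) + 2) * L ^ (j * E2) ≤ L * L ^ (j * E2) := by
            gcongr
            linarith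
        _ = L ^ (j * E2 + 1) := by ring
        _ ≤ L ^ B := hLmono _ _ (by omega)) hK1K hK1n hKK1 hxDK hbox hR hH r hr a d ha hd
  have hmain := hcore x hx1 (cut h x) (fun n hn => cut_zero h x n hn) hfour hsq D K K1 A A1 a0
    R m0 H σ hDKn hxDK ((hLmono _ _ (by omega)).trans hxK) hK1K hKK1
    (le_trans (by gcongr; omega) hKA1) hA1A hA1H hA1D hDA1 hAx
    (fun k hk => hRB B1 (by omega) k (by rw [mem_Ioc] at hk; rw [mem_Icc]; omega))
    (hHB B1 (by omega)) (by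
      intro r hr a ha d hd k hk
      obtain ⟨v1, v2, -⟩ := hvals r hr a d ha hd
      have h1 := v1 k (by rw [mem_Ioc] at hk; rw [mem_Icc]; omega)
      have h2 := v2 k hk
      have h3 : (0:ℝ) ≤ x / L ^ (E0 + j * E2 + 1) := by positivity
      rw [abs_le]
      constructor
      · have : (0:ℝ) ≤ (((FF (C m0 + R + Rr j r) j σ a d).eval (k : ℤ) : ℤ) : ℝ) := h3.trans h2
        have h4 : (0:ℤ) ≤ (FF (C m0 + R + Rr j r) j σ a d).eval (k : ℤ) := by exact_mod_cast this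
        omega
      · have h4 : (FF (C m0 + R + Rr j r) j σ a d).eval (k : ℤ) ≤ (x : ℤ) := by exact_mod_cast h1
        omega) hσ
  -- pointwise
  have hpt : ∀ r ∈ bx j H, ∀ a ∈ Ioc a0 (a0 + A), ∀ d ∈ Ioc D (2 * D),
      ‖∑ k ∈ Icc 1 K, fz h ((FF (C m0 + R + Rr j r) j σ a d).eval (k : ℤ))‖ ≤
      K / L ^ (U + 4) +
        ‖∑ k ∈ Ioc K1 K, fz (cut h x) ((FF (C m0 + R + Rr j r) j σ a d).eval (k : ℤ))‖ := by
    intro r hr a ha d hd
    have hIcc : Icc 1 K = Icc 1 K1 ∪ Ioc K1 K := by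
      ext k; simp only [mem_union, mem_Icc, mem_Ioc]; omega
    have hdisj : Disjoint (Icc 1 K1) (Ioc K1 K) := by
      rw [disjoint_left]
      intro k hk hk2
      rw [mem_Icc] at hk; rw [mem_Ioc] at hk2; omega
    rw [hIcc, sum_union hdisj]
    have h1 : ∑ k ∈ Ioc K1 K, fz h ((FF (C m0 + R + Rr j r) j σ a d).eval (k : ℤ)) =
        ∑ k ∈ Ioc K1 K, fz (cut h x) ((FF (C m0 + R + Rr j r) j σ a d).eval (k : ℤ)) := by
      refine sum_congr rfl fun k hk => ?_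
      have h2 := (hvals r hr a d ha hd).1 k (by rw [mem_Ioc] at hk; rw [mem_Icc]; omega)
      have h3 : (FF (C m0 + R + Rr j r) j σ a d).eval (k : ℤ) ≤ (x : ℤ) := by exact_mod_cast h2
      unfold fz
      split_ifs with h4
      · unfold cut
        rw [if_pos (by omega)]
      · rfl
    rw [h1]
    refine (norm_add_le _ _).trans ?_
    apply add_le_add_left
    refine (norm_sum_le _ _).trans ?_
    calc ∑ k ∈ Icc 1 K1, ‖fz h ((FF (C m0 + R + Rr j r) j σ a d).eval (k : ℤ))‖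
        ≤ ∑ _k ∈ Icc 1 K1, (1:ℝ) := sum_le_sum fun k _ => fz_norm h hb _
      _ = K1 := by rw [sum_const, Nat.card_Icc, nsmul_eq_mul, Nat.add_sub_cancel, mul_one]
      _ ≤ _ := hK1le
  set bc : ℝ := ((bx j H).card : ℝ) with hbc
  have hbc0 : 0 ≤ bc := Nat.cast_nonneg _
  -- Cauchy-Schwarz
  set T := (bx j H) ×ˢ ((Ioc a0 (a0 + A)) ×ˢ (Ioc D (2 * D))) with hT
  set G : (Fin (j - 1) → ℤ) × ℕ × ℕ → ℝ := fun p =>
    ‖∑ k ∈ Ioc K1 K, fz (cut h x) ((FF (C m0 + R + Rr j p.1) j σ p.2.1 p.2.2).eval (k : ℤ))‖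
    with hG
  have hTc : (T.card : ℝ) = bc * (A * D) := by
    rw [hT, card_product, card_product, Nat.card_Ioc, Nat.card_Ioc, show a0 + A - a0 = A by omega,
      show 2 * D - D = D by omega]
    push_cast
    ring
  have hS0 : ∑ r ∈ bx j H, ∑ a ∈ Ioc a0 (a0 + A), ∑ d ∈ Ioc D (2 * D),
        ‖∑ k ∈ Icc 1 K, fz h ((FF (C m0 + R + Rr j r) j σ a d).eval (k : ℤ))‖ ≤
      ∑ p ∈ T, (K / L ^ (U + 4) + G p) := by
    rw [hT, sum_product]
    refine sum_le_sum fun r hr => ?_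
    rw [sum_product]
    refine sum_le_sum fun a ha => sum_le_sum fun d hd => ?_
    exact hpt r hr a ha d hd
  have hS2 : ∑ r ∈ bx j H, ∑ a ∈ Ioc a0 (a0 + A), ∑ d ∈ Ioc D (2 * D),
        ‖∑ k ∈ Ioc K1 K,
          fz (cut h x) ((FF (C m0 + R + Rr j r) j σ a d).eval (k : ℤ))‖ ^ 2 =
      ∑ p ∈ T, G p ^ 2 := by
    rw [hT, sum_product]
    refine sum_congr rfl fun r _ => ?_
    rw [sum_product]
  rw [hS2] at hmain
  have hL1sum : ∑ p ∈ T, G p ≤ bc * (A * D * K) / L ^ (U + 2) := by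
    have h2 := sq_sum_le_card_mul_sum_sq (s := T) (f := G)
    rw [hTc] at h2
    apply le_of_sq_le_sq _ (by positivity)
    refine h2.trans ?_
    calc bc * (A * D) * _ ≤ bc * (A * D) *
          (bc * (A * x * ((K : ℝ) ^ 2 / (K : ℝ) ^ j) / L ^ (2 * U + E0 + 8))) := by
          gcongr
      _ ≤ bc * (A * D) * (bc * (A * (D * (K:ℝ) ^ j * L ^ E0) * ((K : ℝ) ^ 2 / (K : ℝ) ^ j) /
            L ^ (2 * U + E0 + 8))) := by gcongr
      _ = (bc * (A * D * K)) ^ 2 / L ^ (2 * U + 8) := by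
          rw [show 2 * U + E0 + 8 = (2 * U + 8) + E0 by ring, pow_add L _ E0]
          field_simp
      _ ≤ (bc * (A * D * K)) ^ 2 / L ^ (2 * (U + 2)) := by
          gcongr
          · omega
      _ = _ := by rw [div_pow, ← pow_mul, mul_comm 2 (U + 2)]
  refine hS0.trans ?_
  rw [sum_add_distrib, sum_const, nsmul_eq_mul, hTc]
  calc bc * (A * D) * (K / L ^ (U + 4)) + ∑ p ∈ T, G p
      ≤ bc * (A * D) * (K / L ^ (U + 4)) + bc * (A * D * K) / L ^ (U + 2) := by gcongr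
    _ = bc * (A * D * K / L ^ U) * (1 / L ^ 4 + 1 / L ^ 2) := by
        rw [pow_add, pow_add]
        field_simp
    _ ≤ bc * (A * D * K / L ^ U) * 1 := by
        apply mul_le_mul_of_nonneg_left _ (by positivity)
        have h1 : 1 / L ^ 4 ≤ 1 / 1000 := by
          apply one_div_le_one_div_of_le (by norm_num)
          calc (1000:ℝ) ≤ L := hL1000
            _ ≤ L ^ 4 := le_self_pow₀ hL1 (by norm_num)
        have h2 : 1 / L ^ 2 ≤ 1 / 1000 := by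
          apply one_div_le_one_div_of_le (by norm_num)
          nlinarith
        linarith
    _ = _ := mul_one _

end Pool.Agent.Q91.LI
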