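import Pool.Agent.TH892.FullBox4
import Pool.Agent.Q91.BX.Full
import Pool.Agent.Q91.LI.Mean

/-!
Bounded functions with small exponential sums at all polynomials of height at most `H`: first moment
and exceptional set, all lengths `K` between a power of `log H` and `H` divided by a power of `log H`.
-/

set_option autoImplicit false

namespace Pool.Agent.Q91.LI

open Finset Polynomial Filter
open Pool.Agent.H442R2.EHI (evt_log_pow evt_log_ge)
open Pool.Agent.H300R2.BH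
open Pool.Agent.H300R2.FB
open Pool.Agent.TH892
open Pool.Agent.H373R2.T7 (SupSmall)
open Pool.Agent.Q91.BX

theorem mean_fullL (j : ℕ) (hj : 1 ≤ j) (U : ℕ) (h : ℕ → ℂ) (hb : ∀ n, ‖h n‖ ≤ 1)
    (hs : SupSmall h) :
    ∃ B H0 : ℕ, ∀ H : ℕ, H0 ≤ H → ∀ K : ℕ, Real.log H ^ B ≤ K → (K : ℝ) * Real.log H ^ B ≤ H →
    ∑ r ∈ bx j (fun _ => H), ∑ a ∈ Ioc 0 (0 + (2 * H + 1)), ∑ d ∈ Ioc 0 H,
      ‖∑ k ∈ Icc 1 K, fz h ((FP j H r a d).eval (k : ℤ))‖ ≤
      ((bx j (fun _ => H)).card : ℝ) * ((2 * H + 1 : ℕ) : ℝ) * H * K / Real.log H ^ U := by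
  classical
  obtain ⟨B1, x1, hla⟩ := laX j hj (U + 3) (U + 3) (U + 2) h hb hs
  set n := B1 with hn
  obtain ⟨H1, hpar⟩ := paramsX j hj U n
  have hev : ∀ᶠ H : ℕ in atTop, H1 ≤ H ∧ x1 ≤ H ∧ 8 ≤ Real.log H ∧
      Real.log H ^ (U + 2) ≤ (H:ℝ) ^ (1:ℝ) ∧ 1 ≤ H := by
    filter_upwards [eventually_ge_atTop H1, eventually_ge_atTop x1,
      evt_log_ge 8, evt_log_pow (U + 2) 1 (by norm_num), eventually_ge_atTop 1]
      with H h1 h3 h4 h5 h6
    exact ⟨h1, h3, h4, h5, h6⟩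
  obtain ⟨H0, hH0⟩ := eventually_atTop.mp hev
  refine ⟨n + U + 5, H0, fun H hH K hK' hKH' => ?_⟩
  obtain ⟨hH1, hHx1, hL8, hLH, hHn⟩ := hH0 H hH
  rw [Real.rpow_one] at hLH
  set L := Real.log H with hLdef
  have hL0 : 0 < L := by linarith
  have hL1 : 1 ≤ L := by linarith
  have hLp0 : ∀ n : ℕ, 0 < L ^ n := fun n => by positivity
  have hLp : ∀ n : ℕ, 1 ≤ L ^ n := fun n => one_le_pow₀ hL1
  have hLmono : ∀ m n : ℕ, m ≤ n → L ^ m ≤ L ^ n := fun m n h => pow_le_pow_right₀ hL1 h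
  have hHr : (1:ℝ) ≤ H := by exact_mod_cast hHn
  have hH0' : (0:ℝ) < H := by linarith
  have hK : L ^ (n + U + 4) ≤ K := (hLmono _ _ (by omega)).trans hK'
  have hKH : (K : ℝ) * L ^ (n + 1) ≤ H :=
    le_trans (mul_le_mul_of_nonneg_left (hLmono _ _ (by omega)) (Nat.cast_nonneg _)) hKH'
  have hK0 : (0:ℝ) < K := lt_of_lt_of_le (hLp0 _) hK
  set M := ⌈(H:ℝ) / L ^ (U + 2)⌉₊ with hM
  have hMge : (H:ℝ) / L ^ (U + 2) ≤ M := Nat.le_ceil _
  have hMle : (M:ℝ) ≤ 2 * (H / L ^ (U + 2)) := by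
    have h1 : (M:ℝ) < H / L ^ (U + 2) + 1 := Nat.ceil_lt_add_one (by positivity)
    have h2 : 1 ≤ (H:ℝ) / L ^ (U + 2) := by rw [le_div_iff₀ (hLp0 _), one_mul]; exact hLH
    linarith
  have hM1 : 1 ≤ M := by
    have h2 : 0 < (H:ℝ) / L ^ (U + 2) := by positivity
    exact Nat.one_le_iff_ne_zero.mpr (by
      intro h0
      rw [h0] at hMge
      simp only [Nat.cast_zero] at hMge
      linarith)
  obtain ⟨hHx, hLx, hpow, hLx2, hxK, hp⟩ := hpar H hH1 K M hK hKH hMge (4 * H * K ^ j) rfl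
  set x := 4 * H * K ^ j with hx
  set bc : ℝ := ((bx j (fun _ => H)).card : ℝ) with hbc
  have hbc0 : 0 ≤ bc := Nat.cast_nonneg _
  have hAc : ((Ioc 0 (0 + (2 * H + 1))).card : ℝ) = ((2 * H + 1 : ℕ) : ℝ) := by
    rw [Nat.card_Ioc]; simp
  have hmain := dyad_box j H M hM1 (bx j (fun _ => H)) (Ioc 0 (0 + (2 * H + 1)))
    (fun r a d => ‖∑ k ∈ Icc 1 K, fz h ((FP j H r a d).eval (k : ℤ))‖)
    (fun r a d => norm_nonneg _) K (bc * ((2 * H + 1 : ℕ) : ℝ) * K / L ^ (U + 2))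
    (by
      intro r _ a _ d _
      refine (norm_sum_le _ _).trans ?_
      calc ∑ k ∈ Icc 1 K, ‖fz h ((FP j H r a d).eval (k : ℤ))‖
          ≤ ∑ _k ∈ Icc 1 K, (1:ℝ) := sum_le_sum fun k _ => fz_norm h hb _
        _ = K := by rw [sum_const, Nat.card_Icc, nsmul_eq_mul, Nat.add_sub_cancel, mul_one])
    (by positivity)
    (by
      intro D hMD hDH
      obtain ⟨p1, p2, p3, p4, p5, p6⟩ := hp D hMD hDH B1 le_rfl
      have h1 := hla x (hHx1.trans hHx) K D (2 * H + 1) (2 * H + 1) 0 0 (-(H:ℤ) - 1)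
          (fun _ => H) 1 p1 p2
          ((hpow B1 le_rfl).trans ((hLmono _ _ (by omega)).trans hK))
          p3 le_rfl (fun _ => le_rfl) p4 (by omega) p5
          (by
            intro k _
            simp only [eval_zero, Int.cast_zero, abs_zero]
            have : 0 < Real.log x := by linarith
            positivity) p6
      refine h1.trans ?_
      have h2 : (0:ℝ) < Real.log x := by linarith
      calc bc * (((2 * H + 1 : ℕ) : ℝ) * D * K / Real.log x ^ (U + 2))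
          ≤ bc * (((2 * H + 1 : ℕ) : ℝ) * D * K / L ^ (U + 2)) := by gcongr
        _ = _ := by ring)
  refine hmain.trans ?_
  rw [hAc]
  set AH : ℝ := ((2 * H + 1 : ℕ) : ℝ) with hAH
  have hAH0 : 0 ≤ AH := Nat.cast_nonneg _
  calc bc * AH * M * K + 2 * (bc * AH * K / L ^ (U + 2)) * H
      ≤ bc * AH * (2 * (H / L ^ (U + 2))) * K + 2 * (bc * AH * K / L ^ (U + 2)) * H := by
        gcongr
    _ = (bc * AH * H * K / L ^ U) * (4 / L ^ 2) := by
        rw [pow_add]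
        field_simp
        ring
    _ ≤ (bc * AH * H * K / L ^ U) * 1 := by
        apply mul_le_mul_of_nonneg_left _ (by positivity)
        have h2 : 4 / L ^ 2 ≤ 4 / 8 := div_le_div_of_nonneg_left (by norm_num) (by norm_num) (by nlinarith)
        linarith
    _ = _ := mul_one _

/-- `h (|m|)` for `m ≠ 0`, and `0` for `m = 0` -/
noncomputable def hz (h : ℕ → ℝ) (m : ℤ) : ℝ := if m = 0 then 0 else h m.natAbs

/-- the sum of `h (|f k|)` over `1 ≤ k ≤ K` -/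
noncomputable def sz (h : ℕ → ℝ) (F : ℤ[X]) (K : ℕ) : ℝ := ∑ k ∈ Icc 1 K, hz h (F.eval (k : ℤ))

lemma hz_abs (h : ℕ → ℝ) (hb : ∀ n, |h n| ≤ 1) (m : ℤ) : |hz h m| ≤ 1 := by
  unfold hz
  split_ifs
  · simp
  · exact hb _

/-- comparison with the sum over positive values -/
lemma sz_conv (h : ℕ → ℝ) (hb : ∀ n, |h n| ≤ 1) (F : ℤ[X]) (K K1 : ℕ)
    (hF : ∀ k : ℕ, K1 < k → k ≤ K → 0 ≤ F.eval (k : ℤ)) :
    |sz h F K| ≤ K1 + ‖∑ k ∈ Icc 1 K, fz (fun n => (h n : ℂ)) (F.eval (k : ℤ))‖ := by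
  have h0 : ∀ m : ℤ, 0 ≤ m → ((hz h m : ℝ) : ℂ) = fz (fun n => (h n : ℂ)) m := by
    intro m hm
    unfold hz fz
    by_cases h1 : m = 0
    · rw [if_pos h1, if_neg (by omega)]; simp
    · rw [if_neg h1, if_pos (by omega)]
      have : m.natAbs = m.toNat := by omega
      rw [this]
  have h1 : ((sz h F K : ℝ) : ℂ) = ∑ k ∈ Icc 1 K, fz (fun n => (h n : ℂ)) (F.eval (k : ℤ)) +
      ∑ k ∈ (Icc 1 K).filter (fun k : ℕ => F.eval (k : ℤ) < 0), ((hz h (F.eval (k : ℤ)) : ℝ) : ℂ) := by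
    unfold sz
    rw [Complex.ofReal_sum, sum_filter, ← sum_add_distrib]
    refine sum_congr rfl fun k _ => ?_
    by_cases h2 : F.eval (k : ℤ) < 0
    · rw [if_pos h2]
      have : fz (fun n => (h n : ℂ)) (F.eval (k : ℤ)) = 0 := by
        unfold fz
        rw [if_neg (by omega)]
      rw [this, zero_add]
    · rw [if_neg h2, add_zero]
      exact h0 _ (by omega)
  have h2 : |sz h F K| = ‖((sz h F K : ℝ) : ℂ)‖ := by
    rw [Complex.norm_real, Real.norm_eq_abs]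
  rw [h2, h1, add_comm (K1 : ℝ)]
  refine (norm_add_le _ _).trans ?_
  apply add_le_add_right
  refine (norm_sum_le _ _).trans ?_
  calc ∑ k ∈ (Icc 1 K).filter (fun k : ℕ => F.eval (k : ℤ) < 0), ‖((hz h (F.eval (k : ℤ)) : ℝ) : ℂ)‖
      ≤ ∑ _k ∈ (Icc 1 K).filter (fun k : ℕ => F.eval (k : ℤ) < 0), (1:ℝ) := by
        refine sum_le_sum fun k _ => ?_
        rw [Complex.norm_real, Real.norm_eq_abs]
        exact hz_abs h hb _
    _ ≤ ∑ _k ∈ Icc 1 K1, (1:ℝ) := by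
        apply sum_le_sum_of_subset_of_nonneg
        · intro k hk
          rw [mem_filter, mem_Icc] at hk
          rw [mem_Icc]
          refine ⟨hk.1.1, ?_⟩
          by_contra hcon
          have := hF k (by omega) hk.1.2
          omega
        · intros; norm_num
    _ = K1 := by rw [sum_const, Nat.card_Icc, nsmul_eq_mul, Nat.add_sub_cancel, mul_one]

/-- first moment over all polynomials of height at most `H` -/
theorem mean_boxL (j : ℕ) (hj : 1 ≤ j) (U : ℕ) (h : ℕ → ℝ) (hb : ∀ n, |h n| ≤ 1)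
    (hs : SupSmall (fun n => (h n : ℂ))) :
    ∃ B H0 : ℕ, ∀ H : ℕ, H0 ≤ H → ∀ K : ℕ, Real.log H ^ B ≤ K → (K : ℝ) * Real.log H ^ B ≤ H →
    ∑ c ∈ box j H, |sz h (pol c) K| ≤ ((box j H).card : ℝ) * K / Real.log H ^ U := by
  classical
  have hbc : ∀ n, ‖(fun n => (h n : ℂ)) n‖ ≤ 1 := by
    intro n
    simp only [Complex.norm_real, Real.norm_eq_abs]
    exact hb n
  obtain ⟨B, x1, hB⟩ := mean_fullL j hj (U + 1) (fun n => (h n : ℂ)) hbc hs
  have hev : ∀ᶠ H : ℕ in atTop, x1 ≤ H ∧ 8 ≤ Real.log H ∧ 8 * j ≤ Real.log H ∧ 1 ≤ H := by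
    filter_upwards [eventually_ge_atTop x1,
      evt_log_ge 8, evt_log_ge (8 * j), eventually_ge_atTop 1]
      with H h1 h3 h4 h6
    exact ⟨h1, h3, h4, h6⟩
  obtain ⟨H0, hH0⟩ := eventually_atTop.mp hev
  refine ⟨B + U + 4, H0, fun H hH K hK' hKH' => ?_⟩
  obtain ⟨hx1, hL8, hLj, hH1⟩ := hH0 H hH
  have hL1' : 1 ≤ Real.log H := by linarith
  have hK : Real.log H ^ B ≤ K := (pow_le_pow_right₀ hL1' (by omega)).trans hK'
  have hLK : Real.log H ^ (U + 4) ≤ K := (pow_le_pow_right₀ hL1' (by omega)).trans hK'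
  have hKH : (K : ℝ) * Real.log H ^ B ≤ H :=
    le_trans (mul_le_mul_of_nonneg_left (pow_le_pow_right₀ hL1' (by omega)) (Nat.cast_nonneg _)) hKH'
  have hmf := hB H hx1 K hK hKH
  set L := Real.log H with hLdef
  have hL0 : 0 < L := by linarith
  have hL1 : 1 ≤ L := by linarith
  have hLp0 : ∀ n : ℕ, 0 < L ^ n := fun n => by positivity
  have hHr : (1:ℝ) ≤ H := by exact_mod_cast hH1
  -- pointwise comparison
  have hpt : ∀ c ∈ box j H, |sz h (pol c) K| ≤
      ‖∑ k ∈ Icc 1 K, fz (fun n => (h n : ℂ)) ((pol c).eval (k : ℤ))‖ +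
        (j * H : ℕ) / ((c (Fin.last j)).toNat : ℝ) := by
    intro c hc
    have c1 := sz_conv h hb (pol c) K (j * H / (c (Fin.last j)).toNat)
      (fun k hk _ => eval_nonneg hj hc hk)
    have hK1 : ((j * H / (c (Fin.last j)).toNat : ℕ) : ℝ) ≤
        (j * H : ℕ) / ((c (Fin.last j)).toNat : ℝ) := Nat.cast_div_le
    linarith
  have hharm : ∑ d ∈ Ioc 0 H, ((j * H : ℕ) / (d : ℝ)) ≤ j * H * (2 * L) := by
    have h1 : ∑ d ∈ Ioc 0 H, ((d : ℝ))⁻¹ ≤ 1 + L := by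
      have h2 := harmonic_le_one_add_log H
      rw [harmonic_eq_sum_Icc] at h2
      push_cast at h2
      have h3 : Ioc 0 H = Icc 1 H := by ext; simp [Nat.succ_le_iff]
      rw [h3]
      exact h2
    calc ∑ d ∈ Ioc 0 H, ((j * H : ℕ) / (d : ℝ)) = (j * H) * ∑ d ∈ Ioc 0 H, ((d : ℝ))⁻¹ := by
          rw [mul_sum]
          refine sum_congr rfl fun d _ => ?_
          push_cast
          rw [div_eq_mul_inv]
      _ ≤ (j * H) * (2 * L) := by
          gcongr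
          linarith
  have hfirst : ∑ c ∈ box j H, ‖∑ k ∈ Icc 1 K, fz (fun n => (h n : ℂ)) ((pol c).eval (k : ℤ))‖ ≤
      ((box j H).card : ℝ) * K / L ^ (U + 1) := by
    rw [sum_box hj H (fun f _ => ‖∑ k ∈ Icc 1 K, fz (fun n => (h n : ℂ)) (f.eval (k : ℤ))‖),
      card_box hj H]
    exact hmf
  have hsecond : ∑ c ∈ box j H, ((j * H : ℕ) / ((c (Fin.last j)).toNat : ℝ)) ≤
      ((box j H).card : ℝ) * K / L ^ (U + 1) := by
    rw [sum_box hj H (fun _ d => ((j * H : ℕ) / (d : ℝ))), card_box hj H]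
    calc _ ≤ ∑ _r ∈ bx j (fun _ => H), ∑ _a ∈ Ioc 0 (0 + (2 * H + 1)), (j * H * (2 * L)) := by
          refine sum_le_sum fun r _ => sum_le_sum fun a _ => ?_
          exact hharm
      _ = ((bx j (fun _ => H)).card : ℝ) * ((2 * H + 1 : ℕ) : ℝ) * H * (2 * j * L) := by
          simp only [sum_const, Nat.card_Ioc, nsmul_eq_mul]
          rw [show 0 + (2 * H + 1) - 0 = 2 * H + 1 by omega]
          ring
      _ ≤ ((bx j (fun _ => H)).card : ℝ) * ((2 * H + 1 : ℕ) : ℝ) * H * (K / L ^ (U + 1)) := by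
          apply mul_le_mul_of_nonneg_left _ (by positivity)
          rw [le_div_iff₀ (hLp0 _)]
          calc 2 * (j:ℝ) * L * L ^ (U + 1) ≤ L * L * L ^ (U + 1) := by
                gcongr
                have : (0:ℝ) ≤ j := Nat.cast_nonneg _
                linarith
            _ = L ^ (U + 3) := by ring
            _ ≤ L ^ (U + 4) := pow_le_pow_right₀ hL1 (by omega)
            _ ≤ _ := hLK
      _ = _ := by ring
  calc _ ≤ ∑ c ∈ box j H, (‖∑ k ∈ Icc 1 K, fz (fun n => (h n : ℂ)) ((pol c).eval (k : ℤ))‖ +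
        (j * H : ℕ) / ((c (Fin.last j)).toNat : ℝ)) := sum_le_sum hpt
    _ ≤ ((box j H).card : ℝ) * K / L ^ (U + 1) + ((box j H).card : ℝ) * K / L ^ (U + 1) := by
        rw [sum_add_distrib]
        exact add_le_add hfirst hsecond
    _ = ((box j H).card : ℝ) * K / L ^ U * (2 / L) := by
        rw [pow_succ]
        field_simp
        ring
    _ ≤ ((box j H).card : ℝ) * K / L ^ U * 1 := by
        apply mul_le_mul_of_nonneg_left _ (by positivity)
        rw [div_le_one hL0]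
        linarith
    _ = _ := mul_one _

/-- **the exceptional set**, all lengths `K` simultaneously -/
theorem exc_boxL (j : ℕ) (hj : 1 ≤ j) (U : ℕ) (h : ℕ → ℝ) (hb : ∀ n, |h n| ≤ 1)
    (hs : SupSmall (fun n => (h n : ℂ))) :
    ∃ B H0 : ℕ, ∀ H : ℕ, H0 ≤ H → ∃ Bad ⊆ box j H,
      ((Bad.card : ℕ) : ℝ) ≤ ((box j H).card : ℝ) / Real.log H ^ U ∧
      ∀ c ∈ box j H, c ∉ Bad → ∀ K : ℕ, Real.log H ^ B ≤ K → (K : ℝ) * Real.log H ^ B ≤ H →
        |sz h (pol c) K| ≤ K / Real.log H ^ U := by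
  classical
  obtain ⟨B, x1, hB⟩ := mean_boxL j hj (3 * U + 7) h hb hs
  have hev : ∀ᶠ H : ℕ in atTop, x1 ≤ H ∧ 8 ≤ Real.log H := by
    filter_upwards [eventually_ge_atTop x1, evt_log_ge 8] with H h1 h3
    exact ⟨h1, h3⟩
  obtain ⟨H0, hH0⟩ := eventually_atTop.mp hev
  refine ⟨B + U + 5, H0, fun H hH => ?_⟩
  obtain ⟨hx1, hL8⟩ := hH0 H hH
  have hmb := hB H hx1
  set L := Real.log H with hLdef
  have hL0 : 0 < L := by linarith
  have hL1 : 1 ≤ L := by linarith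
  have hLp0 : ∀ n : ℕ, 0 < L ^ n := fun n => by positivity
  have hLmono : ∀ m n : ℕ, m ≤ n → L ^ m ≤ L ^ n := fun m n h => pow_le_pow_right₀ hL1 h
  set P : (Fin (j + 1) → ℤ) → Prop := fun c => ∃ K : ℕ, L ^ (B + U + 5) ≤ K ∧
      (K : ℝ) * L ^ (B + U + 5) ≤ H ∧ (K : ℝ) / L ^ U < |sz h (pol c) K| with hP
  have hpa : ∀ c : Fin (j + 1) → ℤ, ∀ K : ℕ,
      (∑ k ∈ Icc 1 K, (1 + hz h ((pol c).eval (k : ℤ)))) - 1 * (K : ℝ) = sz h (pol c) K := by
    intro c K
    unfold sz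
    rw [sum_add_distrib, sum_const, Nat.card_Icc, nsmul_eq_mul, Nat.add_sub_cancel]
    ring
  have key := all_K (box j H) (fun c K => ∑ k ∈ Icc 1 K, (1 + hz h ((pol c).eval (k : ℤ))))
    (fun _ K => (K : ℝ)) (fun _ => 1) U H (L ^ (B + U + 4)) B hL8
    (fun c _ K K' hKK => by
      apply sum_le_sum_of_subset_of_nonneg (Icc_subset_Icc_right hKK)
      intro k _ _
      have := (abs_le.1 (hz_abs h hb ((pol c).eval (k : ℤ)))).1
      linarith)
    (fun c _ K K' hKK => by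
      have : (K:ℝ) ≤ K' := by exact_mod_cast hKK
      constructor <;> linarith)
    (fun c _ => ⟨zero_le_one, by linarith⟩)
    (fun K hK hKH => by
      have h1 := hmb K ((hLmono _ _ (by omega)).trans hK) hKH
      refine le_trans (le_of_eq ?_) h1
      refine sum_congr rfl fun c _ => ?_
      rw [hpa])
    (hLmono _ _ (by omega)) P (by
      intro c _ hPc
      obtain ⟨K, h1, h2, h3⟩ := hPc
      refine ⟨K, ?_, ?_, ?_⟩
      · refine le_trans ?_ h1
        calc 4 * L ^ (B + U + 4) ≤ L * L ^ (B + U + 4) := by gcongr; linarith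
          _ = _ := by ring
      · refine le_trans ?_ h2
        exact mul_le_mul_of_nonneg_left (hLmono _ _ (by omega)) (Nat.cast_nonneg _)
      · rw [hpa]
        exact h3)
  refine ⟨(box j H).filter P, filter_subset _ _, key, fun c hc hcB K h1 h2 => ?_⟩
  rw [mem_filter, not_and] at hcB
  have h3 := hcB hc
  by_contra hcon
  push Not at hcon
  exact h3 ⟨K, h1, h2, hcon⟩

end Pool.Agent.Q91.LI
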